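import Pool.Agent.Lib.MP_651af7_nt.Av.Fin

namespace Pool.Agent.Lib.MP_651af7_nt.Old.AbelianBlowups

open Height MvPolynomial NumberField

/-- The local height at `v` of the hypersurface `R = 0` of degree `e` at the point `x`. -/
noncomputable def lam {k : Type} [Field k] {n : ℕ} (v : AbsoluteValue k ℝ)
    (R : MvPolynomial (Fin n) k) (e : ℕ) (x : Fin n → k) : ℝ :=
  Real.log ((⨆ a, v (x a)) ^ e / v (eval x R))

/-- Vojta's inequality for rational points on blow-ups of an abelian variety. The variety is the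
zero set of `I`, its points over the algebraic closure form the group `A` with homogeneous
coordinates `co`, and the map sending `(p, q)` to `(p + q, p - q)` is given by the forms `Φ`. -/
theorem result (k : Type) [Field k] [NumberField k] (n m d : ℕ)
    (I : Ideal (MvPolynomial (Fin n) k)) (hI : ∀ P ∈ I, ∀ l, homogeneousComponent l P ∈ I)
    (hp : (I.map (MvPolynomial.map (algebraMap k (AlgebraicClosure k)))).IsPrime)
    (A : Type) [AddCommGroup A] (co : A → Fin n → AlgebraicClosure k) (h0 : ∀ p, co p ≠ 0)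
    (hz : ∀ p, ∀ P ∈ I, aeval (co p) P = 0)
    (hs : ∀ v : Fin n → AlgebraicClosure k, v ≠ 0 → (∀ P ∈ I, aeval v P = 0) →
      ∃! p, ∃ c : AlgebraicClosure k, v = c • co p)
    (Φ : Fin n → Fin n → MvPolynomial (Fin n ⊕ Fin n) k)
    (hΦ : ∀ a b, (Φ a b).IsWeightedHomogeneous
      (Sum.elim (fun _ => ((1, 0) : ℕ × ℕ)) fun _ => (0, 1)) (2, 2))
    (law : ∀ p q, ∃ c : AlgebraicClosure k, c ≠ 0 ∧ ∀ a b,
      aeval (Sum.elim (co p) (co q)) (Φ a b) = c * (co (p + q) a * co (p - q) b))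
    (G : Fin m → MvPolynomial (Fin n) k) (hG : ∀ j, (G j).IsHomogeneous d)
    (hc : 2 ≤ ((Ideal.span (Set.range G)).map (Ideal.Quotient.mk I)).height) (ε : ℝ)
    (hε : 0 < ε) : ∃ (Θ : MvPolynomial (Fin n) k) (t : ℕ), Θ.IsHomogeneous t ∧ Θ ∉ I ∧
      ∀ (R : MvPolynomial (Fin n) k) (e : ℕ) (S : Finset (FinitePlace k)), R.IsHomogeneous e →
      ∃ C : ℝ, ∀ x : Fin n → k, x ≠ 0 → (∀ P ∈ I, eval x P = 0) → eval x Θ ≠ 0 → eval x R ≠ 0 →
        (fun j => eval x (G j)) ≠ 0 ∧
        (∑ w : InfinitePlace k, w.mult * lam w.1 R e x + ∑ w ∈ S, lam w.1 R e x) +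
        (d * logHeight x - logHeight fun j => eval x (G j)) ≤ ε * logHeight x + C :=
  Pool.Agent.Lib.MP_651af7_nt.Av.vojta I hI hp A co h0 hz hs Φ hΦ law G hG hc hε

end Pool.Agent.Lib.MP_651af7_nt.Old.AbelianBlowups
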