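import Pool.Agent.Lib.MP_651af7_nt.Db.Main

namespace Pool.Agent.Results.MP_651af7_nt.AbelianBundles

open Height MvPolynomial NumberField

/-- The local height at `v` of a family of hyperplanes at the point `(x, X)`: the form has the value
`l` and degree `e` in `x`, and `X` has degree `b` in `x`. -/
noncomputable def lam {k : Type} [Field k] {g n : ℕ} (v : AbsoluteValue k ℝ) (e b : ℕ)
    (x : Fin g → k) (X : Fin n → k) (l : k) : ℝ :=
  Real.log ((⨆ a, v (x a)) ^ e * (⨆ i, v (X i)) / ((⨆ a, v (x a)) ^ b * v l))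

/-- Vojta's inequality for rational points on a projective bundle over an abelian variety, for
families of hyperplanes in general position. The abelian variety is the zero set of `I`. The fibre
over `x` is the column space of `B (x)`, and `p` is the vector of its Pluecker coordinates. -/
theorem result (k : Type) [Field k] [NumberField k] (g n r q b : ℕ)
    (I : Ideal (MvPolynomial (Fin g) k)) (hI : ∀ P ∈ I, ∀ l, homogeneousComponent l P ∈ I)
    (hA : Pool.Agent.Lib.MP_651af7_nt.Ds.Abelian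
      (I.map (MvPolynomial.map (algebraMap k (AlgebraicClosure k)))))
    (B : Matrix (Fin n) (Fin (r + 1)) (MvPolynomial (Fin g) k))
    (hB : ∀ i j, (B i j).IsHomogeneous b)
    (L : Fin q → Fin (r + 1) → MvPolynomial (Fin g) k) (e : Fin q → ℕ)
    (hL : ∀ j i, (L j i).IsHomogeneous (e j)) (ε : ℝ) (hε : 0 < ε) :
    ∃ (F : MvPolynomial (Fin (r + 1)) (MvPolynomial (Fin g) k)) (s s' : ℕ), F.IsHomogeneous s ∧
      (∀ μ, (coeff μ F).IsHomogeneous s') ∧ (∃ μ, coeff μ F ∉ I) ∧
      ∀ S : Finset (FinitePlace k), ∃ C : ℝ, ∀ (x : Fin g → k) (t : Fin (r + 1) → k)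
        (J : AbsoluteValue k ℝ → Finset (Fin q)) (X : Fin n → k)
        (p : (Fin (r + 1) → Fin n) → k) (l : Fin q → k), x ≠ 0 → (∀ P ∈ I, eval x P = 0) →
        X = (B.map (eval x)).mulVec t → p = (fun u => ((B.map (eval x)).submatrix u id).det) →
        l = (fun j => ∑ i, eval x (L j i) * t i) → p ≠ 0 → eval₂ (eval x) t F ≠ 0 →
        (∀ v, ∀ T ⊆ J v, T.card ≤ r + 1 →
          LinearIndependent k fun j : T => fun i => eval x (L j i)) →
        (∀ v, ∀ j ∈ J v, l j ≠ 0) →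
        ∑ w : InfinitePlace k, w.mult * ∑ j ∈ J w.1, lam w.1 (e j) b x X (l j) +
          ∑ w ∈ S, ∑ j ∈ J w.1, lam w.1 (e j) b x X (l j) +
          (logHeight p - (r + 1) * logHeight X) ≤ ε * (logHeight x + logHeight X) + C := by
  obtain ⟨F, s, s', h1, h2, h3, hF⟩ :=
    Pool.Agent.Lib.MP_651af7_nt.Db.vb_abelian hI hA n (r + 1) q b B hB L e hL ε hε
  refine ⟨F, s, s', h1, h2, h3, fun S => ?_⟩
  obtain ⟨C, hC⟩ := hF S
  refine ⟨C, ?_⟩
  rintro x t J _ _ _ a1 a2 rfl rfl rfl a3 a4 a5 a6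
  have h := hC x t (fun p => J (Pool.Agent.Lib.MP_651af7_nt.Rt.av p)) a1 a2 a4 a3
    (fun p => a5 _) (fun p => a6 _)
  rw [Fintype.sum_sum_type] at h
  rw [← Finset.sum_coe_sort S]
  simp only [Pool.Agent.Lib.MP_651af7_nt.Rt.mu, Pool.Agent.Lib.MP_651af7_nt.Rt.av, Sum.elim_inl,
    Sum.elim_inr, Nat.cast_one, one_mul, Nat.cast_add] at h
  exact add_sub_assoc (G := ℝ) _ _ _ ▸ sub_le_iff_le_add'.2 (h.trans_eq (add_assoc _ _ _))

end Pool.Agent.Results.MP_651af7_nt.AbelianBundles
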