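import Pool.Agent.Lib.MP_651af7_nt.Cn.SFin

namespace Pool.Agent.Lib.MP_651af7_nt.Old.AbelianCones

open Height MvPolynomial NumberField

/-- The local height at `w` of the zero set of a polynomial `R` whose monomials have degrees between
`a` and `b`. -/
noncomputable def lam {k : Type} [Field k] {n : ℕ} (w : AbsoluteValue k ℝ)
    (R : MvPolynomial (Fin n) k) (a b : ℕ) (v : Fin n → k) : ℝ :=
  Real.log (max ((⨆ i, w (v i)) ^ a) ((⨆ i, w (v i)) ^ b) / w (eval v R))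

/-- Vojta's inequality for points of the affine cone over an abelian variety. The variety is the
zero set of `I`, its points over the algebraic closure form the group `A` with homogeneous
coordinates `co`, and the map sending `(p, q)` to `(p + q, p - q)` is given by the forms `Φ`. -/
theorem result (k : Type) [Field k] [NumberField k] (n m a b a' b' : ℕ)
    (I : Ideal (MvPolynomial (Fin n) k)) (hI : ∀ P ∈ I, ∀ l, homogeneousComponent l P ∈ I)
    (hp : (I.map (MvPolynomial.map (algebraMap k (AlgebraicClosure k)))).IsPrime)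
    (A : Type) [AddCommGroup A] (co : A → Fin n → AlgebraicClosure k) (h0 : ∀ p, co p ≠ 0)
    (hz : ∀ p, ∀ P ∈ I, aeval (co p) P = 0)
    (hs : ∀ v : Fin n → AlgebraicClosure k, v ≠ 0 → (∀ P ∈ I, aeval v P = 0) →
      ∃! p, ∃ c : AlgebraicClosure k, v = c • co p)
    (Φ : Fin n → Fin n → MvPolynomial (Fin n ⊕ Fin n) k)
    (hΦ : ∀ i j, (Φ i j).IsWeightedHomogeneous
      (Sum.elim (fun _ => ((1, 0) : ℕ × ℕ)) fun _ => (0, 1)) (2, 2))
    (law : ∀ p q, ∃ c : AlgebraicClosure k, c ≠ 0 ∧ ∀ i j,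
      aeval (Sum.elim (co p) (co q)) (Φ i j) = c * (co (p + q) i * co (p - q) j))
    (G : Fin m → MvPolynomial (Fin n) k)
    (hG : ∀ j, ∀ μ ∈ (G j).support, a ≤ μ.degree ∧ μ.degree ≤ b)
    (ha : ∃ j, homogeneousComponent a (G j) ∉ I) (hb : ∃ j, homogeneousComponent b (G j) ∉ I)
    (hc : 2 ≤ ((Ideal.span (Set.range G)).map (Ideal.Quotient.mk I)).height)
    (R : MvPolynomial (Fin n) k) (hR : ∀ μ ∈ R.support, a' ≤ μ.degree ∧ μ.degree ≤ b')
    (ha' : homogeneousComponent a' R ∉ I) (hb' : homogeneousComponent b' R ∉ I) (ε : ℝ)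
    (hε : 0 < ε) : ∃ (Θ : MvPolynomial (Fin n) k) (t : ℕ), Θ.IsHomogeneous t ∧ Θ ∉ I ∧
      ∀ S : Finset (FinitePlace k), ∃ c C : ℝ, ∀ v : Fin n → k, v ≠ 0 → (∀ P ∈ I, eval v P = 0) →
        eval v Θ ≠ 0 → eval v R ≠ 0 → (fun j => eval v (G j)) ≠ 0 ∧
        (∑ w : InfinitePlace k, w.mult * lam w.1 R a' b' v + ∑ w ∈ S, lam w.1 R a' b' v) +
        (a * logHeight v + ((b : ℝ) - a) * logHeight (Fin.cons 1 v : Fin (n + 1) → k) -
          logHeight fun j => eval v (G j)) ≤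
        ε * logHeight (Fin.cons 1 v : Fin (n + 1) → k) +
          c * ∑ᶠ w ∈ (S : Set (FinitePlace k))ᶜ, |Real.log (⨆ i, w.1 (v i))| + C := by
  obtain ⟨B, rfl, -⟩ :=
    Lib.MP_651af7_nt.Av.exists_av (AlgebraicClosure k) I hI hp A co h0 hz hs Φ hΦ law
  obtain ⟨Θ, t, h1, h2, h3⟩ := Lib.MP_651af7_nt.Cn.both_parts B hG ha hb hc hR ha' hb' hε
  refine ⟨Θ, t, h1, h2, fun S => ?_⟩
  obtain ⟨c, h3⟩ := h3 (Lib.MP_651af7_nt.Cn.plc S)
  refine ⟨c, c, fun v v0 vz vΘ vR => (h3 v v0 vz vΘ vR).imp_right fun h4 => ?_⟩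
  rw [Lib.MP_651af7_nt.Cn.isum_plc, Lib.MP_651af7_nt.Cn.gsum_mv v0, Lib.MP_651af7_nt.Cn.cnt,
    Lib.MP_651af7_nt.Cn.osum_plc] at h4
  simp only [lam, Lib.MP_651af7_nt.Cn.mv_eq hR v0 vR, Lib.MP_651af7_nt.Cn.hc_eq]
  exact h4

end Pool.Agent.Lib.MP_651af7_nt.Old.AbelianCones
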