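import Pool.Agent.Lib.MP_651af7_nt.Sc.Main

namespace Pool.Agent.Results.MP_651af7_nt.AbelianScrolls

open Height MvPolynomial NumberField Pool.Agent.Lib
open MP_651af7_nt.Bx MP_651af7_nt.Ds MP_651af7_nt.Et MP_651af7_nt.Sc MP_8865d3_nt.Lr MP_8865d3_nt.Ai

/-- Vojta's inequality for rational points on varieties with an étale cover that is a scroll over an
abelian variety, for divisors that are sums of hyperplanes in general position on the generic
fibre. -/
theorem result (k : Type) [Field k] [NumberField k] (N N' M n g b : ℕ)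
    (I : Ideal (MvPolynomial (Fin N) k)) (hI : Var I) (hs : Smooth I g)
    (I' : Ideal (MvPolynomial (Fin N') (AlgebraicClosure k))) (hI' : Var I')
    (f : (Fin N' → AlgebraicClosure k) → Fin N → AlgebraicClosure k)
    (hf : Etale I' (I.map (MvPolynomial.map (algebraMap k (AlgebraicClosure k)))) f)
    (J : Ideal (MvPolynomial (Fin M) (AlgebraicClosure k))) (hJ : Abelian J)
    (B : Fin N' → Fin (n + 1) → MvPolynomial (Fin M) (AlgebraicClosure k))
    (hB : ∀ i j, (B i j).IsHomogeneous b) (hb : ∃ φ χ, BirP I' J φ χ fun i => lin (B i))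
    (c m : ℕ) (e : Fin c → ℕ) (D : Fin c → Fin m → MvPolynomial (Fin N) k)
    (hD : ∀ s l, (D s l).IsHomogeneous (e s))
    (hD' : ∀ s, Arr J (aeval (fun i => lin (B i)) '' pull I' f (D s))) (ε : ℝ) (hε : 0 < ε) :
    ∃ (Θ : MvPolynomial (Fin N) k) (t : ℕ), Θ.IsHomogeneous t ∧ Θ ∉ I ∧
      ∀ S : Finset (FinitePlace k), ∃ C : ℝ, ∀ (x : Fin N → k) (s : AbsoluteValue k ℝ → Fin c),
        x ≠ 0 → (∀ P ∈ I, eval x P = 0) → eval x Θ ≠ 0 → (∀ s, (fun l => eval x (D s l)) ≠ 0) →
        Module.finrank k (tsp I x) = g + 1 ∧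
        ∀ β : Fin (g + 1) → Fin N → k, LinearIndependent k β → (∀ l, β l ∈ tsp I x) →
        (∑ w : InfinitePlace k, w.mult * lam w.1 (D (s w.1)) (e (s w.1)) x +
          ∑ w ∈ S, lam w.1 (D (s w.1)) (e (s w.1)) x) + hK x β ≤ ε * logHeight x + C :=
  main hI hs hI' hf hJ hB hb hD hD' hε

end Pool.Agent.Results.MP_651af7_nt.AbelianScrolls
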