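import Pool.Agent.Lib.MP_651af7_nt.Ny.Dif
import Pool.Agent.Lib.MP_651af7_nt.Cq.Main

/-! Vojta's inequality for divisors with simple normal crossings on smooth projective varieties
with a finite étale cover birational to the projective cone over an abelian variety, up to the
counting function of the vertex and of the section at infinity.

The variety is the zero set of `I`, the cover is the zero set of `I'`, and the forms `D` generate
the ideal sheaf of the divisor. The abelian variety is the zero set of `J`, its points form the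
group `A` with homogeneous coordinates `co`, and the forms `Φ` give the map sending `(p, q)` to
`(p + q, p - q)`. The cone has the extra coordinate `none`. The height of the canonical class is
read from the Gauss map. -/

namespace Pool.Agent.Lib.MP_651af7_nt.Old.ConePairs

open Height MvPolynomial NumberField Pool.Agent.Lib
open MP_651af7_nt.Bx MP_651af7_nt.Ds MP_651af7_nt.Et MP_651af7_nt.Nx

theorem result (k : Type) [Field k] [NumberField k] (N N' M g : ℕ) (hg : 2 ≤ g)
    (I : Ideal (MvPolynomial (Fin N) k)) (hI : Var I) (hs : Smooth I g)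
    (I' : Ideal (MvPolynomial (Fin N') (AlgebraicClosure k))) (hI' : Var I')
    (f : (Fin N' → AlgebraicClosure k) → Fin N → AlgebraicClosure k)
    (hf : Etale I' (I.map (MvPolynomial.map (algebraMap k (AlgebraicClosure k)))) f)
    (J : Ideal (MvPolynomial (Fin M) (AlgebraicClosure k))) (A : Type) [AddCommGroup A]
    (co : A → Fin M → AlgebraicClosure k) (hJ : Pts J co)
    (Φ : Fin M → Fin M → MvPolynomial (Fin M ⊕ Fin M) (AlgebraicClosure k))
    (hΦ : ∀ i j, (Φ i j).IsWeightedHomogeneous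
      (Sum.elim (fun _ => ((1, 0) : ℕ × ℕ)) fun _ => (0, 1)) (2, 2))
    (law : ∀ p q, ∃ c : AlgebraicClosure k, c ≠ 0 ∧ ∀ i j,
      eval (Sum.elim (co p) (co q)) (Φ i j) = c * (co (p + q) i * co (p - q) j))
    (φ : Option (Fin M) → MvPolynomial (Fin N') (AlgebraicClosure k))
    (ψ : Fin N' → MvPolynomial (Option (Fin M)) (AlgebraicClosure k))
    (h₁ : Inv I' (J.map (rename some)) φ ψ) (h₂ : Inv (J.map (rename some)) I' ψ φ)
    (a e : ℕ) (D : Fin a → MvPolynomial (Fin N) k) (hD : ∀ l, (D l).IsHomogeneous e)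
    (K : Type) [Field K] [Algebra k K] (ξ : Fin N → K) (hr : Snc I g D ξ)
    (ε : ℝ) (hε : 0 < ε) :
    ∃ (Θ : MvPolynomial (Fin N) k) (t : ℕ) (L : IntermediateField k (AlgebraicClosure k))
      (_ : NumberField L), Θ.IsHomogeneous t ∧ Θ ∉ I ∧
      ∀ (S : Finset (FinitePlace k)) (T : Finset (FinitePlace L)), ∃ c C : ℝ,
        ∀ (x : Fin N → k) (y : Fin N' → AlgebraicClosure k) (s : AlgebraicClosure k), x ≠ 0 →
        (∀ P ∈ I, eval x P = 0) → eval x Θ ≠ 0 → (fun l => eval x (D l)) ≠ 0 → y ≠ 0 →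
        (∀ P ∈ I', eval y P = 0) → (fun i => algebraMap k (AlgebraicClosure k) (x i)) = s • f y →
        ∃ v : Fin M → L, v ≠ 0 ∧
        (∀ j, (v j : AlgebraicClosure k) = eval y (φ (some j)) / eval y (φ none)) ∧
        Module.finrank k (tsp I x) = g + 1 ∧
        ∀ β : Fin (g + 1) → Fin N → k, LinearIndependent k β → (∀ l, β l ∈ tsp I x) →
        ∑ w : InfinitePlace k, w.mult * lam w.1 D e x + ∑ w ∈ S, lam w.1 D e x + hK x β ≤
          ε * logHeight x +
            c * ∑ᶠ w ∈ (T : Set (FinitePlace L))ᶜ, |Real.log (⨆ j, w.1 (v j))| + C := by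
  obtain ⟨Θ, t, L, hL, t1, t2, t3⟩ := MP_651af7_nt.Cq.main hI hs hg hI' hf hJ ⟨hΦ, law⟩ h₁ h₂ hD
    (fun _ => isHomogeneous_one _ _) (MP_651af7_nt.Ny.snc_vi hr) hε
  refine ⟨Θ, t, L, hL, t1, t2, fun S T => (t3 S T).imp fun c => Exists.imp
    fun C h x y s x0 xz xΘ xD y0 yz hy => ?_⟩
  obtain ⟨v, u0, u1, u2, u3⟩ := h x y s x0 xz xΘ xD (fun h => one_ne_zero
    ((map_one (eval x)).symm.trans (congrFun h ()))) y0 yz hy
  refine ⟨v, u0, u1, u2, fun β b1 b2 => ?_⟩
  have h1 := u3 β b1 b2
  have h0 : ∀ v, lam v (fun _ : Unit => (1 : MvPolynomial (Fin N) k)) 0 x = 0 := fun v => by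
    simp [lam]
  rw [MP_651af7_nt.Cn.cnt, MP_651af7_nt.Cn.osum_plc] at h1
  simp only [h0, sub_zero] at h1
  exact (add_comm _ _).trans_le h1

end Pool.Agent.Lib.MP_651af7_nt.Old.ConePairs
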