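import Pool.Agent.Lib.MP_651af7_nt.VjMain
import Pool.Agent.Lib.MP_651af7_nt.FinAppr
import Pool.Agent.Lib.MP_8865d3_nt.FaT4

namespace Pool.Agent.Lib.MP_651af7_nt.Old.EllipticBlowups

open Height MvPolynomial NumberField

/-- Homogeneous coordinates of a point of a Weierstrass cubic in the projective plane. -/
def pr {F : Type} [Field F] {W : WeierstrassCurve F} : W.toAffine.Point → Fin 3 → F
  | .zero => ![0, 1, 0]
  | .some x y _ => ![x, y, 1]

/-- The local height at `v` of the curve `R = 0` of bidegree `(e, e')` at the point `(P, Q)`. -/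
noncomputable def lam {k : Type} [Field k] (v : AbsoluteValue k ℝ)
    (R : MvPolynomial (Fin 3 ⊕ Fin 3) k) (e e' : ℕ) (P Q : Fin 3 → k) : ℝ :=
  Real.log ((⨆ i, v (P i)) ^ e * (⨆ i, v (Q i)) ^ e' / v (eval (Sum.elim P Q) R))

/-- Vojta's inequality for rational points on blow-ups of a product of two elliptic curves. -/
theorem result (W W' : WeierstrassCurve ℚ) [W.IsElliptic] [W'.IsElliptic]
    (k : Type) [Field k] [NumberField k] (n d d' : ℕ)
    (G : Fin n → MvPolynomial (Fin 3 ⊕ Fin 3) k)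
    (hG : ∀ j, (G j).IsWeightedHomogeneous
      (Sum.elim (fun _ => ((1, 0) : ℕ × ℕ)) fun _ => (0, 1)) (d, d'))
    (hfin : {T : (W.map (algebraMap ℚ (AlgebraicClosure k))).toAffine.Point ×
        (W'.map (algebraMap ℚ (AlgebraicClosure k))).toAffine.Point |
      ∀ j, aeval (Sum.elim (pr T.1) (pr T.2)) (G j) = 0}.Finite) (ε : ℝ) (hε : 0 < ε) :
    ∃ Θ : MvPolynomial (Fin 2) k, Θ ≠ 0 ∧
      ∀ (R : MvPolynomial (Fin 3 ⊕ Fin 3) k) (e e' : ℕ) (S : Finset (FinitePlace k)),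
      ∃ C : ℝ, ∀ x y x' y' : k, (W.map (algebraMap ℚ k)).toAffine.Equation x y →
      (W'.map (algebraMap ℚ k)).toAffine.Equation x' y' → eval ![x, x'] Θ ≠ 0 →
      eval (Sum.elim ![x, y, 1] ![x', y', 1]) R ≠ 0 →
      (fun j => eval (Sum.elim ![x, y, 1] ![x', y', 1]) (G j)) ≠ 0 ∧
      (∑ w : InfinitePlace k, w.mult * lam w.1 R e e' ![x, y, 1] ![x', y', 1] +
        ∑ w ∈ S, lam w.1 R e e' ![x, y, 1] ![x', y', 1]) +
      (d * logHeight ![x, y, 1] + d' * logHeight ![x', y', 1] -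
        logHeight (fun j => eval (Sum.elim ![x, y, 1] ![x', y', 1]) (G j))) ≤
        ε * (logHeight₁ x + logHeight₁ x') + C := by
  refine Pool.Agent.MP_651af7_nt.Final.vojta Pool.Agent.Lib.MP_651af7_nt.Vj.core_main
    (Pool.Agent.MP_651af7_nt.Final.appr_of_fa
      (fun _ _ _ => Pool.Agent.Lib.MP_8865d3_nt.Fa.siegel_pi)
      fun _ _ _ => Pool.Agent.Lib.MP_8865d3_nt.Fa.fa_fixed) W W' k G d d' hG ?_ ε hε
  have e : ∀ {F : Type} [Field F] {V : WeierstrassCurve F} (P : V.toAffine.Point),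
      Pool.Agent.MP_651af7_nt.Final.pr P = pr P := fun P => by cases P <;> rfl
  simpa only [e] using hfin

end Pool.Agent.Lib.MP_651af7_nt.Old.EllipticBlowups
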