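import Pool.Agent.Lib.MP_651af7_nt.Es.UFin

namespace Pool.Agent.Results.MP_651af7_nt.EllipticBundles

open Height MvPolynomial NumberField

/-- The local height at `v` of a divisor of bidegree `(e, 1)` on the product of the projective
plane and a projective space at the point `(P, X)`, where the form has the value `l`. -/
noncomputable def lam {k : Type} [Field k] {n : ℕ} (v : AbsoluteValue k ℝ) (e : ℕ) (P : Fin 3 → k)
    (X : Fin n → k) (l : k) : ℝ :=
  Real.log ((⨆ i, v (P i)) ^ e * (⨆ i, v (X i)) / v l)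

/-- Vojta's inequality for rational points on a projective bundle over an elliptic curve, for
families of hyperplanes in general position.  The fibre over `(x, y)` is the column space of
`B (x, y)`, and `p` is the vector of its Pluecker coordinates. -/
theorem result (W : WeierstrassCurve ℚ) [W.IsElliptic] (k : Type) [Field k] [NumberField k]
    (n r q : ℕ) (B : Matrix (Fin n) (Fin (r + 1)) (MvPolynomial (Fin 2) k))
    (L : Fin q → Fin (r + 1) → MvPolynomial (Fin 2) k) (e : Fin q → ℕ) (ε : ℝ) (hε : 0 < ε) :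
    ∃ (d : ℕ) (F : MvPolynomial (Fin (r + 1)) (Polynomial k)), F ≠ 0 ∧ F.IsHomogeneous d ∧
      ∀ S : Finset (FinitePlace k), ∃ C : ℝ,
      ∀ (x y : k) (t : Fin (r + 1) → k) (J : AbsoluteValue k ℝ → Finset (Fin q))
        (X : Fin n → k) (p : (Fin (r + 1) → Fin n) → k),
        (W.map (algebraMap ℚ k)).toAffine.Equation x y →
        X = (B.map (eval ![x, y])).mulVec t →
        p = (fun s => ((B.map (eval ![x, y])).submatrix s id).det) → p ≠ 0 →
        eval₂ (Polynomial.evalRingHom x) t F ≠ 0 →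
        (∀ v, ∀ I ⊆ J v, I.card ≤ r + 1 →
          LinearIndependent k fun j : I => fun i => eval ![x, y] (L j i)) →
        (∀ v, ∀ j ∈ J v, ∑ i, eval ![x, y] (L j i) * t i ≠ 0) →
        ∑ w : InfinitePlace k, w.mult * ∑ j ∈ J w.1,
            lam w.1 (e j) ![x, y, 1] X (∑ i, eval ![x, y] (L j i) * t i) +
          ∑ w ∈ S, ∑ j ∈ J w.1, lam w.1 (e j) ![x, y, 1] X (∑ i, eval ![x, y] (L j i) * t i) +
          (logHeight p - (r + 1) * logHeight X) ≤ ε * (logHeight₁ x + logHeight X) + C := by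
  obtain ⟨d, F, h0, hd, hF⟩ := Pool.Agent.Lib.MP_651af7_nt.Es.vojtaU (K := k) W B L e hε
  refine ⟨d, F, h0, hd, fun S => ?_⟩
  obtain ⟨C, hC⟩ := hF S
  refine ⟨C, ?_⟩
  rintro x y t J _ _ h1 rfl rfl h5 h2 h3 h4
  have h := hC x y t (fun p => J (Pool.Agent.Lib.MP_651af7_nt.Rt.av p)) h1 h2 h5 (fun p => h3 _)
    (fun p => h4 _)
  rw [Fintype.sum_sum_type] at h
  rw [← Finset.sum_coe_sort S]
  simp only [Pool.Agent.Lib.MP_651af7_nt.Rt.mu, Pool.Agent.Lib.MP_651af7_nt.Rt.av, Sum.elim_inl,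
    Sum.elim_inr, Nat.cast_one, one_mul, Nat.cast_add] at h
  exact add_sub_assoc (G := ℝ) _ _ _ ▸ sub_le_iff_le_add'.2 (h.trans_eq (add_assoc _ _ _))

end Pool.Agent.Results.MP_651af7_nt.EllipticBundles
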