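import Pool.Agent.Lib.MP_651af7_nt.Main

open Polynomial Pool.Agent.Lib.MP_651af7_nt

theorem Pool.Agent.Lib.MP_651af7_nt.Old.ExceptionalSet.result
    (S : Finset Nat.Primes) (g : ℚ[X]) (q : ℕ) (hg : Squarefree g)
    (_hq : g.natDegree ≤ q) (hq' : q ≤ g.natDegree + 1) (n : ℕ) (hn : 2 ≤ n)
    (ε : ℝ) (hε : 0 < ε) (C θ : ℝ)
    (hθ : ∀ j : ℕ, j < n →
      ((n : ℝ) + 2) * (n - j) * (n + j - 1) ≤ θ * ((n : ℝ) ^ 2 + 6 * n - 4 * j)) :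
    ∃ B : ℝ, ∀ T : ℝ, 1 ≤ T → (exceptions S g q n ε C T).Finite ∧
      ((exceptions S g q n ε C T).ncard : ℝ) ≤ B * T ^ θ := by
  refine main_bound S g hg q hq' n hn ((n + 2) / 4) θ (by positivity) (fieldCount_schmidt n hn)
    (fun j hjn => ?_) ε C hε
  have := hθ j hjn
  rw [Nat.cast_sub hjn.le]
  linarith
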