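import Pool.Agent.Lib.MP_651af7_nt.Moving.Main

/-! Vojta's inequality on projective bundles over projective space, up to the counting function
of the toric boundary of the base.

`X` is the toric variety with Cox ring `ℤ[u 0, …, u k, x 0, …, x n]`, where `u t` has degree
`(1, 0)` and `x i` has degree `(a i, 1)`; a rational point is given by primitive integer vectors
`u` and `x`. -/

namespace Pool.Agent.Results.MP_651af7_nt.MovingUnits

open Finset MvPolynomial

/-- The Weil height attached to the divisor class `(α, β)` at the point `(u, x)`. -/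
noncomputable def ht {k n : ℕ} (a : Fin (n + 1) → ℕ) (α β : ℝ) (u : Fin (k + 1) → ℤ)
    (x : Fin (n + 1) → ℤ) : ℝ :=
  α * Real.log ‖u‖ + β * Real.log ‖fun i => (x i : ℝ) / ‖u‖ ^ a i‖

/-- The logarithm of the prime-to-`S` part of `z`. -/
noncomputable def cnt (S : Finset ℕ) (z : ℤ) : ℝ :=
  Real.log |(z : ℝ)| + ∑ p ∈ S, Real.log ((padicNorm p (z : ℚ) : ℚ) : ℝ)

open Pool.Agent.Lib.MP_651af7_nt.Moving Pool.Agent.Lib.Common.Subspace in
theorem cnt_eq (S : Finset ℕ) (hS : ∀ p ∈ S, p.Prime) {z : ℤ} (hz : z ≠ 0) :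
    cnt S z = Real.log (∏ o, place S hS o z) := by
  rw [Real.log_prod (fun o _ => ((place S hS o).pos (by exact_mod_cast hz)).ne'),
    Fintype.sum_option, place_none, cnt, ← sum_coe_sort S]
  rfl

open Pool.Agent.Lib.MP_651af7_nt.Moving Pool.Agent.Lib.Common.Subspace in
theorem result (k n q : ℕ) (a : Fin (n + 1) → ℕ) (d : Fin q → ℕ)
    (g : Fin q → Fin (n + 1) → MvPolynomial (Fin (k + 1)) ℤ)
    (hg : ∀ j i, ∀ μ ∈ (g j i).support, μ.degree + a i = d j)
    (hgen : ∀ (s : Fin (k + 1)) (T : Finset (Fin q)), T.card ≤ n + 1 →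
      LinearIndependent ℚ fun (j : T) i => ((eval (Pi.single s 1) (g j i) : ℤ) : ℚ))
    (ε : ℝ) (hε : 0 < ε) :
    ∃ (c : ℝ) (F : MvPolynomial (Fin (k + 1) ⊕ Fin (n + 1)) ℤ) (e : ℕ × ℕ), F ≠ 0 ∧
      F.IsWeightedHomogeneous (Sum.elim (fun _ => (1, 0)) fun i => (a i, 1)) e ∧
      ∀ S : Finset ℕ, (∀ p ∈ S, p.Prime) → ∃ C : ℝ,
        ∀ (u : Fin (k + 1) → ℤ) (x : Fin (n + 1) → ℤ), univ.gcd u = 1 → univ.gcd x = 1 →
          eval (Sum.elim u x) F ≠ 0 →
          (∀ t, u t ≠ 0) ∧ (∀ j, ∑ i, eval u (g j i) * x i ≠ 0) ∧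
          ∑ t, (ht a 1 0 u x - cnt S (u t)) +
            ∑ j, (ht a (d j) 1 u x - cnt S (∑ i, eval u (g j i) * x i)) +
            ht a (-(k + 1 + ∑ i, (a i : ℝ))) (-(n + 1)) u x ≤
          ε * ht a (1 + ∑ i, (a i : ℝ)) 1 u x + c * ∑ t, cnt S (u t) + C := by
  obtain ⟨c, F, e, hF0, hFe, h⟩ := main_mul a d g hg (fun s T hT => hgen s T (by simpa using hT)) hε
  refine ⟨c - 1, F, e, hF0, hFe, fun S hS => ?_⟩
  obtain ⟨C, hC⟩ := h S hS
  refine ⟨C, fun u x hu hx hz => ?_⟩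
  obtain ⟨hu0, hx0, h1⟩ := hC u x hu hx hz
  have hu1 := one_le_norm hu0
  have hupos : 0 < ‖u‖ := by linarith
  have hξ0 := xi_pos a hupos hx0
  have hl : ∀ j, ∑ i, eval u (g j i) * x i ≠ 0 := fun j h0 => by
    rw [prod_eq_zero (mem_univ none) (prod_eq_zero (mem_univ j) (by rw [h0]; simp))] at h1
    norm_num at h1
  refine ⟨hu0, hl, ?_⟩
  have hA : ∀ z : ℤ, z ≠ 0 → 0 < ∏ o, place S hS o z := fun z hz =>
    one_pos.trans_le ((places_place S hS).2.2 z hz)
  have h2 : (∏ o, ∏ j, place S hS o ((∑ i, eval u (g j i) * x i : ℤ) : ℚ) /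
      ((o.elim ‖u‖ fun _ => 1) ^ d j * o.elim (xi a u x) fun _ => 1)) =
      ∏ j, (∏ o, place S hS o ((∑ i, eval u (g j i) * x i : ℤ) : ℚ)) / (‖u‖ ^ d j * xi a u x) := by
    rw [prod_comm]
    refine prod_congr rfl fun j _ => ?_
    rw [prod_div_distrib, prod_mul_distrib, prod_pow, prod_elim, prod_elim]
  rw [h2] at h1
  have h3 := Real.log_nonneg h1
  rw [Real.log_mul (mul_pos (Real.exp_pos _) (pow_pos (prod_pos fun t _ => hA _ (hu0 t)) _)).ne'
      (mul_pos (prod_pos fun j _ => div_pos (hA _ (hl j)) (by positivity))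
        (prod_pos fun r _ => by positivity)).ne',
    Real.log_mul (Real.exp_pos _).ne' (pow_pos (prod_pos fun t _ => hA _ (hu0 t)) _).ne',
    Real.log_exp, Real.log_pow, Real.log_prod (fun t _ => (hA _ (hu0 t)).ne'),
    Real.log_mul (prod_pos fun j _ => div_pos (hA _ (hl j)) (by positivity)).ne'
      (prod_pos fun r _ => by positivity).ne',
    Real.log_prod (fun j _ => (div_pos (hA _ (hl j)) (by positivity)).ne'),
    Real.log_prod (fun r _ => by positivity)] at h3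
  have h4 : ∀ j, Real.log ((∏ o, place S hS o ((∑ i, eval u (g j i) * x i : ℤ) : ℚ)) /
      (‖u‖ ^ d j * xi a u x)) = -(ht a (d j) 1 u x - cnt S (∑ i, eval u (g j i) * x i)) := by
    intro j
    rw [Real.log_div (hA _ (hl j)).ne' (by positivity), Real.log_mul (by positivity) hξ0.ne',
      Real.log_pow, cnt_eq S hS (hl j), ht, xi]
    ring
  have h5 : ∀ r, Real.log (‖u‖ ^ a r * xi a u x) = a r * Real.log ‖u‖ + Real.log (xi a u x) := by
    intro r
    rw [Real.log_mul (by positivity) hξ0.ne', Real.log_pow]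
  have h6 : Real.log ‖x‖ ≤ (∑ i, (a i : ℝ)) * Real.log ‖u‖ + Real.log (xi a u x) := by
    obtain ⟨i, hi⟩ := exists_norm_eq x
    have h7 := Real.log_le_log (by rw [abs_pos]; exact_mod_cast hx0 i) (le_xi a hupos x i)
    rw [h5] at h7
    have h8 : (a i : ℝ) ≤ ∑ i, (a i : ℝ) :=
      single_le_sum (f := fun i => (a i : ℝ)) (fun _ _ => Nat.cast_nonneg _) (mem_univ i)
    have h9 := mul_le_mul_of_nonneg_right h8 (Real.log_nonneg hu1)
    rw [← hi, Int.norm_eq_abs]
    linarith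
  have h10 := mul_le_mul_of_nonneg_left h6 hε.le
  simp only [h4, h5, ← cnt_eq S hS (hu0 _), sum_neg_distrib, sum_add_distrib, ← sum_mul, sum_const,
    card_univ, Fintype.card_fin, nsmul_eq_mul] at h3
  rw [sum_sub_distrib (s := univ) (f := fun _ => ht a 1 0 u x), sum_const, card_univ,
    Fintype.card_fin, nsmul_eq_mul]
  simp only [ht, xi] at h3 h10 ⊢
  push_cast at h3 ⊢
  linarith

end Pool.Agent.Results.MP_651af7_nt.MovingUnits
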