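import Pool.Agent.Lib.MP_651af7_nt.Fc.Main

namespace Pool.Agent.Lib.MP_651af7_nt.Old.NevForm

open Height MvPolynomial NumberField IntermediateField Pool.Agent.Lib.MP_651af7_nt Ds Fc

/-- The theorem of Ru and Vojta with the Nevanlinna constant of the generic fibre of a family over
an abelian variety. -/
theorem result (k : Type) [Field k] [NumberField k] (g n q s : ℕ)
    (J : Ideal (MvPolynomial (Fin g) k)) (hJ : ∀ P ∈ J, ∀ d, homogeneousComponent d P ∈ J)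
    (hA : Abelian (J.map (MvPolynomial.map (algebraMap k (AlgebraicClosure k)))))
    (K : Type) [Field K] [Algebra k K] (y : Fin g → K) (f : Fin n → K)
    (hy : ∀ (P : MvPolynomial (Fin g) k) (d : ℕ), P.IsHomogeneous d → (aeval y P = 0 ↔ P ∈ J))
    (y1 : ∃ i, y i = 1) (F : IntermediateField k K) (hF : F = adjoin k (Set.range y))
    (hK : adjoin F (Set.range f) = ⊤) (hc : ∀ z : K, IsAlgebraic F z → z ∈ F)
    (U : Fin q → Fin s → MvPolynomial (Fin g ⊕ Fin n) k)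
    (hU : ∀ j, ∃ l, aeval (Sum.elim y f) (U j l) ≠ 0) (e δ a : Fin q → ℕ) (b : ℕ)
    (hN : NevB F f (fun j l => aeval (Sum.elim y f) (U j l)) δ a b) (ε : ℝ) (hε : 0 < ε) :
    ∃ Θ : MvPolynomial (Fin g ⊕ Fin n) k, aeval (Sum.elim y f) Θ ≠ 0 ∧
      ∀ S : Finset (FinitePlace k), ∃ C : ℝ, ∀ (x : Fin g → k) (t : Fin n → k),
        (∀ P, aeval (Sum.elim y f) P = 0 → eval (Sum.elim x t) P = 0) →
        eval (Sum.elim x t) Θ ≠ 0 → (∀ j, ∃ l, eval (Sum.elim x t) (U j l) ≠ 0) ∧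
        ∑ v : InfinitePlace k, v.mult * ∑ j, a j * Real.log ((⨆ i, v (x i)) ^ e j *
            (⨆ i, v (t i)) ^ δ j / ⨆ l, v (eval (Sum.elim x t) (U j l))) +
          ∑ v ∈ S, ∑ j, a j * Real.log ((⨆ i, v (x i)) ^ e j *
            (⨆ i, v (t i)) ^ δ j / ⨆ l, v (eval (Sum.elim x t) (U j l))) ≤
        (b + ε) * logHeight t + ε * logHeight x + C := by
  subst hF
  obtain ⟨W, ⟨Θ, a1, a2⟩, a3⟩ := Dat.ineq ⟨hJ, hA, y1, hy, hc⟩ hK hU e hN hε
  refine ⟨Θ, a1, fun S => (a3 S).imp fun C hC x t p1 p2 => (hC _ (a2 _ p1 p2)).imp_right fun h => ?_⟩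
  rw [Fintype.sum_sum_type] at h
  simp only [Rt.mu, Rt.av, Sum.elim_inl, Sum.elim_inr, Nat.cast_one, one_mul] at h
  rwa [Finset.sum_coe_sort S fun v => ∑ j, a j * Real.log ((⨆ i, v.1 (x i)) ^ e j *
    (⨆ i, v.1 (t i)) ^ δ j / ⨆ l, v.1 (eval (Sum.elim x t) (U j l)))] at h

end Pool.Agent.Lib.MP_651af7_nt.Old.NevForm
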