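import Pool.Agent.Lib.MP_651af7_nt.Nx.Dif
import Pool.Agent.Lib.MP_651af7_nt.Cu.VModel

/-! Vojta's inequality for divisors with simple normal crossings on smooth projective varieties
birational to the product of an abelian variety and a projective space, up to the counting function
of the coordinate hyperplanes.

The variety is the zero set of `I`, and the forms `D` generate the ideal sheaf of the divisor. The
height of the canonical class is read from the Gauss map. -/

namespace Pool.Agent.Results.MP_651af7_nt.ProductPairs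

open Height MvPolynomial NumberField Pool.Agent.Lib
open MP_651af7_nt.Bx MP_651af7_nt.Ds MP_651af7_nt.Nx MP_8865d3_nt.Lr

theorem result (k : Type) [Field k] [NumberField k] (N M n g : ℕ)
    (I : Ideal (MvPolynomial (Fin N) k)) (hI : Var I) (hs : Smooth I g)
    (J : Ideal (MvPolynomial (Fin M) (AlgebraicClosure k))) (hJ : Abelian J)
    (χ : Fin (n + 1) → MvPolynomial (Fin N) k)
    (hb : ∃ φ ψ, BirP (I.map (MvPolynomial.map (algebraMap k (AlgebraicClosure k)))) J φ
      (fun j => MvPolynomial.map (algebraMap k (AlgebraicClosure k)) (χ j)) ψ)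
    (a e : ℕ) (D : Fin a → MvPolynomial (Fin N) k) (hD : ∀ l, (D l).IsHomogeneous e)
    (K : Type) [Field K] [Algebra k K] (ξ : Fin N → K) (hr : Snc I g D ξ)
    (ε : ℝ) (hε : 0 < ε) :
    ∃ (Θ : MvPolynomial (Fin N) k) (t : ℕ), Θ.IsHomogeneous t ∧ Θ ∉ I ∧
      ∀ S : Finset (FinitePlace k), ∃ c C : ℝ, ∀ x : Fin N → k, x ≠ 0 → (∀ P ∈ I, eval x P = 0) →
        eval x Θ ≠ 0 → (fun l => eval x (D l)) ≠ 0 →
        (∀ j, eval x (χ j) ≠ 0) ∧ Module.finrank k (tsp I x) = g + 1 ∧
        ∀ β : Fin (g + 1) → Fin N → k, LinearIndependent k β → (∀ l, β l ∈ tsp I x) →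
        ∑ w : InfinitePlace k, w.mult * lam w.1 D e x + ∑ w ∈ S, lam w.1 D e x + hK x β ≤
          ε * logHeight x + c * cnt S (fun j => eval x (χ j)) + C := by
  obtain ⟨A, _, co, h1, h2⟩ := hJ
  obtain ⟨φ, ψ, hb⟩ := hb
  cases a with
  | zero =>
    exact ⟨1, 0, isHomogeneous_one _ _, fun h => one_ne_zero ((map_one (aeval ξ)).symm.trans
      ((hr.ker 1 0 (isHomogeneous_one _ _)).2 h)),
      fun S => ⟨0, 0, fun x _ _ _ h => (h (Subsingleton.elim _ _)).elim⟩⟩
  | succ a =>
    obtain ⟨Θ, t, t1, t2, t3⟩ := MP_651af7_nt.Nx.of_model hI hs h1 (MP_651af7_nt.Cu.model h1 h2) hb hD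
      (fun _ => isHomogeneous_one _ _) hr.vi hε
    refine ⟨Θ, t, t1, t2, fun S => (t3 S).imp fun c => Exists.imp fun C h x x0 xz xΘ xD => ?_⟩
    obtain ⟨u1, u2, u3⟩ := h x x0 xz xΘ xD fun h => one_ne_zero
      ((map_one (eval x)).symm.trans (congrFun h ()))
    refine ⟨u1, u2, fun β b1 b2 => (le_of_eq ?_).trans (u3 β b1 b2)⟩
    have h0 : ∀ v, lam v (fun _ : Unit => (1 : MvPolynomial (Fin N) k)) 0 x = 0 := fun v => by
      simp [lam]
    simp only [h0, sub_zero]
    exact add_comm _ _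

end Pool.Agent.Results.MP_651af7_nt.ProductPairs
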