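import Pool.Agent.Lib.MP_651af7_nt.Jn.ODic

/-! Integral points on finite covers of abelian varieties inside a torsor of the multiplicative
group.

The abelian varieties are the zero sets of `I` and `I'`. The homogeneous prime ideal `p` defines a
variety `W` in the join of the two, and the bihomogeneous forms of `p` define its image `V` in the
product. The divisor `D` is cut out on `W` by the two centres `v = 0` and `v' = 0` of the join. -/

namespace Pool.Agent.Lib.MP_651af7_nt.Old.RamifiedCovers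

open Height MvPolynomial NumberField Pool.Agent.Lib.MP_651af7_nt

/-- The bidegree of the variables of two blocks. -/
def bw (n n' : ℕ) : Fin n ⊕ Fin n' → ℕ × ℕ := Sum.elim (fun _ => (1, 0)) fun _ => (0, 1)

/-- The zero set of `I` is an abelian variety, `A` is the group of its points over the algebraic
closure, with homogeneous coordinates `co`, and the map sending `(p, q)` to `(p + q, p - q)` is
given by forms of bidegree `(2, 2)` over `k`. -/
structure Ab {k : Type} [Field k] {n : ℕ} (I : Ideal (MvPolynomial (Fin n) k)) {A : Type}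
    [AddCommGroup A] (co : A → Fin n → AlgebraicClosure k) : Prop where
  hom : ∀ P ∈ I, ∀ d, homogeneousComponent d P ∈ I
  prime : (I.map (MvPolynomial.map (algebraMap k (AlgebraicClosure k)))).IsPrime
  ne : ∀ p, co p ≠ 0
  zero : ∀ p, ∀ P ∈ I, aeval (co p) P = 0
  bij : ∀ v : Fin n → AlgebraicClosure k, v ≠ 0 → (∀ P ∈ I, aeval v P = 0) →
    ∃! p, ∃ c : AlgebraicClosure k, v = c • co p
  law : ∃ Φ : Fin n → Fin n → MvPolynomial (Fin n ⊕ Fin n) k,
    (∀ a b, (Φ a b).IsWeightedHomogeneous (bw n n) (2, 2)) ∧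
    ∀ p q, ∃ c : AlgebraicClosure k, c ≠ 0 ∧ ∀ a b,
      aeval (Sum.elim (co p) (co q)) (Φ a b) = c * (co (p + q) a * co (p - q) b)

/-- The bihomogeneous forms of `q` vanish at `(v, v')`. -/
def InV {k R : Type} [Field k] [Field R] [Algebra k R] {n n' : ℕ}
    (q : Ideal (MvPolynomial (Fin n ⊕ Fin n') k)) (v : Fin n → R) (v' : Fin n' → R) : Prop :=
  ∀ f d, f.IsWeightedHomogeneous (bw n n') d → f ∈ q → aeval (Sum.elim v v') f = 0

/-- The local height at `w` of the point `(v : v')` with respect to `D`: the sum of the local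
heights of the centres `v = 0` and `v' = 0`. -/
noncomputable def lam {k : Type} [Field k] {n n' : ℕ} (w : AbsoluteValue k ℝ) (v : Fin n → k)
    (v' : Fin n' → k) : ℝ :=
  Real.log ((⨆ c, w (Sum.elim v v' c)) / ⨆ a, w (v a)) +
    Real.log ((⨆ c, w (Sum.elim v v' c)) / ⨆ b, w (v' b))

theorem result (k : Type) [Field k] [NumberField k] (n n' : ℕ)
    (A A' : Type) [AddCommGroup A] [AddCommGroup A']
    (I : Ideal (MvPolynomial (Fin n) k)) (co : A → Fin n → AlgebraicClosure k) (hA : Ab I co)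
    (I' : Ideal (MvPolynomial (Fin n') k)) (co' : A' → Fin n' → AlgebraicClosure k)
    (hA' : Ab I' co') (p : Ideal (MvPolynomial (Fin n ⊕ Fin n') k)) (hp : p.IsPrime)
    (hh : ∀ f ∈ p, ∀ d, homogeneousComponent d f ∈ p)
    (hI : ∀ f ∈ I, rename .inl f ∈ p) (hI' : ∀ f ∈ I', rename .inr f ∈ p)
    (hN : ∃ f ∈ p, ∃ d, weightedHomogeneousComponent (bw n n') d f ∉ p)
    (hB : ∀ f f' d d', f.IsWeightedHomogeneous (bw n n') d → f'.IsWeightedHomogeneous (bw n n') d' →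
      d ≠ d' → f + f' ∈ p → f ∈ p)
    (hH : ∀ (q : Ideal (MvPolynomial (Fin n ⊕ Fin n') k)) (B : AddSubgroup (A × A')) (a : A × A'),
      (∀ x, x ∈ B ↔ InV q (co x.1) (co' x.2)) → (∀ b ∈ B, InV p (co (a + b).1) (co' (a + b).2)) →
      (∀ x, InV p (co x.1) (co' x.2) → x - a ∈ B) ∨ ∃ η C : ℝ, 0 < η ∧
        ∀ (v : Fin n → k) (v' : Fin n' → k), v ≠ 0 → v' ≠ 0 → (∀ f ∈ I, eval v f = 0) →
          (∀ f ∈ I', eval v' f = 0) → InV q v v' →
          η * (logHeight v + logHeight v') ≤ |logHeight v - logHeight v'| + C) :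
    ∃ (Θ : MvPolynomial (Fin n ⊕ Fin n') k) (t : ℕ) (c : ℝ), Θ.IsHomogeneous t ∧ Θ ∉ p ∧
      ∀ S : Finset (FinitePlace k), ∃ C : ℝ, ∀ (v : Fin n → k) (v' : Fin n' → k),
        (∀ f ∈ p, eval (Sum.elim v v') f = 0) → eval (Sum.elim v v') Θ ≠ 0 → v ≠ 0 ∧ v' ≠ 0 ∧
          logHeight (Sum.elim v v') ≤
            c * ∑ᶠ w ∈ (S : Set (FinitePlace k))ᶜ, lam w.1 v v' + C := by
  obtain ⟨Φ, hΦ, law⟩ := hA.law
  obtain ⟨Φ', hΦ', law'⟩ := hA'.law
  obtain ⟨A₁, rfl, -, e₁, h₁⟩ :=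
    Av.exists_av _ I hA.hom hA.prime A co hA.ne hA.zero hA.bij Φ hΦ law
  obtain ⟨A₂, rfl, -, e₂, h₂⟩ :=
    Av.exists_av _ I' hA'.hom hA'.prime A' co' hA'.ne hA'.zero hA'.bij Φ' hΦ' law'
  obtain ⟨e, m, l, σ, hR⟩ := Jn.exists_rel hh hN
  obtain ⟨Θ, t, c, h1, h2, h3⟩ := Jn.final hp hR hI hI' (Jn.core
    ⟨hp, hh, hI, hI', hN, hB, fun _ _ _ => Jn.cos_of e₁ e₂ h₁ h₂ hI hI' hH⟩ hR)
  refine ⟨Θ, t, c, h1, h2, fun S => (h3 (Cn.plc S)).imp fun C h v v' hz h0 => ?_⟩
  obtain ⟨h4, h5, h6⟩ := h v v' hz h0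
  rw [Cn.osum_plc] at h6
  simp only [Jn.abs_ell h4 h5] at h6
  exact ⟨h4, h5, h6⟩

end Pool.Agent.Lib.MP_651af7_nt.Old.RamifiedCovers
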