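import Pool.Agent.Lib.MP_651af7_nt.Fx.Old

namespace Pool.Agent.Lib.MP_651af7_nt.Old.RelativeRuVojta

open Height MvPolynomial NumberField IntermediateField Pool.Agent.Lib.MP_651af7_nt Ds Fc

/-- The general theorem of Ru and Vojta for a family over an abelian variety, with proper
intersection and the constants `β` taken on the generic fibre. -/
theorem result (k : Type) [Field k] [NumberField k] (g n q s : ℕ)
    (J : Ideal (MvPolynomial (Fin g) k)) (hJ : ∀ P ∈ J, ∀ d, homogeneousComponent d P ∈ J)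
    (hA : Abelian (J.map (MvPolynomial.map (algebraMap k (AlgebraicClosure k)))))
    (K : Type) [Field K] [Algebra k K] (y : Fin g → K) (f : Fin n → K)
    (hy : ∀ (P : MvPolynomial (Fin g) k) (d : ℕ), P.IsHomogeneous d → (aeval y P = 0 ↔ P ∈ J))
    (y1 : ∃ i, y i = 1) (f1 : ∃ i, f i ≠ 0) (F : IntermediateField k K)
    (hF : F = adjoin k (Set.range y)) (hK : adjoin F (Set.range f) = ⊤)
    (hc : ∀ z : K, IsAlgebraic F z → z ∈ F) (U : Fin q → Fin s → MvPolynomial (Fin g ⊕ Fin n) k)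
    (hU : ∀ j, ∃ l, aeval (Sum.elim y f) (U j l) ≠ 0) (e δ : Fin q → ℕ)
    (hδ : ∀ j l, aeval (Sum.elim y f) (U j l) ∈ mon F f (δ j))
    (hP : Proper F f (fun j l => aeval (Sum.elim y f) (U j l)) δ) (ε : ℝ) (hε : 0 < ε) :
    ∃ Θ : MvPolynomial (Fin g ⊕ Fin n) k, aeval (Sum.elim y f) Θ ≠ 0 ∧
      ∀ S : Finset (FinitePlace k), ∃ C : ℝ, ∀ (x : Fin g → k) (t : Fin n → k),
        (∀ P, aeval (Sum.elim y f) P = 0 → eval (Sum.elim x t) P = 0) →
        eval (Sum.elim x t) Θ ≠ 0 → (∀ j, ∃ l, eval (Sum.elim x t) (U j l) ≠ 0) ∧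
        ∑ j, beta F f (fun j l => aeval (Sum.elim y f) (U j l)) δ j *
          (∑ v : InfinitePlace k, v.mult * Real.log ((⨆ i, v (x i)) ^ e j *
            (⨆ i, v (t i)) ^ δ j / ⨆ l, v (eval (Sum.elim x t) (U j l))) +
          ∑ v ∈ S, Real.log ((⨆ i, v (x i)) ^ e j *
            (⨆ i, v (t i)) ^ δ j / ⨆ l, v (eval (Sum.elim x t) (U j l)))) ≤
        (1 + ε) * logHeight t + ε * logHeight x + C :=
  Fx.old k g n q s J hJ hA K y f hy y1 f1 F hF hK hc U hU e δ hδ (Fx.genPos_of_proper hP) ε hε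

end Pool.Agent.Lib.MP_651af7_nt.Old.RelativeRuVojta
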