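import Pool.Agent.Lib.MP_651af7_nt.Ny.Dif
import Pool.Agent.Lib.MP_8865d3_nt.Sx.Main

/-! Vojta's inequality for divisors with simple normal crossings on smooth projective varieties
with a finite étale cover birational to a semiabelian variety, up to the counting function of the
boundary of a compactification by a projective bundle over the abelian quotient.

The variety is the zero set of `I`, the cover is the zero set of `I'`, and the forms `D` generate
the ideal sheaf of the divisor. The height of the canonical class is read from the Gauss map. -/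

namespace Pool.Agent.Lib.MP_651af7_nt.Old.SemiabelianPairs

open Height MvPolynomial NumberField Pool.Agent.Lib
open MP_651af7_nt.Bx MP_651af7_nt.Et MP_651af7_nt.Nx MP_8865d3_nt.Sa

theorem result (k : Type) [Field k] [NumberField k] (N N' M n r g : ℕ)
    (I : Ideal (MvPolynomial (Fin N) k)) (hI : Var I) (hs : Smooth I g)
    (I' : Ideal (MvPolynomial (Fin N') (AlgebraicClosure k))) (hI' : Var I')
    (f : (Fin N' → AlgebraicClosure k) → Fin N → AlgebraicClosure k)
    (hf : Etale I' (I.map (MvPolynomial.map (algebraMap k (AlgebraicClosure k)))) f)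
    (Q : Ideal (MvPolynomial (Fin M ⊕ Fin (n + 1) × Fin r) (AlgebraicClosure k))) (hQ : Semiab Q)
    (χ : Fin (n + 1) × Fin r → MvPolynomial (Fin N') (AlgebraicClosure k))
    (hb : ∃ φ ψ, BirQ I' Q φ χ ψ)
    (a e : ℕ) (D : Fin a → MvPolynomial (Fin N) k) (hD : ∀ l, (D l).IsHomogeneous e)
    (K : Type) [Field K] [Algebra k K] (ξ : Fin N → K) (hr : Snc I g D ξ)
    (ε : ℝ) (hε : 0 < ε) :
    ∃ (Θ : MvPolynomial (Fin N) k) (t : ℕ) (L : IntermediateField k (AlgebraicClosure k))
      (_ : NumberField L), Θ.IsHomogeneous t ∧ Θ ∉ I ∧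
      ∀ (S : Finset (FinitePlace k)) (T : Finset (FinitePlace L)), ∃ c C : ℝ,
        ∀ (x : Fin N → k) (y : Fin N' → AlgebraicClosure k) (s : AlgebraicClosure k), x ≠ 0 →
        (∀ P ∈ I, eval x P = 0) → eval x Θ ≠ 0 → (fun l => eval x (D l)) ≠ 0 → y ≠ 0 →
        (∀ P ∈ I', eval y P = 0) → (fun i => algebraMap k (AlgebraicClosure k) (x i)) = s • f y →
        ∃ (z : Fin (n + 1) × Fin r → L) (u : AlgebraicClosure k),
        (∀ j, (z j : AlgebraicClosure k) = u * eval y (χ j)) ∧ (∀ j, (fun m => z (j, m)) ≠ 0) ∧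
        Module.finrank k (tsp I x) = g + 1 ∧
        ∀ β : Fin (g + 1) → Fin N → k, LinearIndependent k β → (∀ l, β l ∈ tsp I x) →
        ∑ w : InfinitePlace k, w.mult * lam w.1 D e x + ∑ w ∈ S, lam w.1 D e x + hK x β ≤
          ε * logHeight x + c * cnt T z + C := by
  obtain ⟨Θ, t, L, hL, t1, t2, t3⟩ := MP_8865d3_nt.Sx.main hI hs hI' hf hQ hb hD
    (fun _ => isHomogeneous_one _ _) (MP_651af7_nt.Ny.snc_vi hr) hε
  refine ⟨Θ, t, L, hL, t1, t2, fun S T => (t3 S T).imp fun c => Exists.imp
    fun C h x y s x0 xz xΘ xD y0 yz hy => ?_⟩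
  obtain ⟨z, u, u0, u1, u2, u3⟩ := h x y s x0 xz xΘ xD (fun h => one_ne_zero
    ((map_one (eval x)).symm.trans (congrFun h ()))) y0 yz hy
  refine ⟨z, u, u0, u1, u2, fun β b1 b2 => (le_of_eq ?_).trans (u3 β b1 b2)⟩
  have h0 : ∀ v, lam v (fun _ : Unit => (1 : MvPolynomial (Fin N) k)) 0 x = 0 := fun v => by
    simp [lam]
  simp only [h0, sub_zero]
  exact add_comm _ _

end Pool.Agent.Lib.MP_651af7_nt.Old.SemiabelianPairs
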