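import Pool.Agent.Lib.MP_8865d3_nt.Tr.MainF
import Pool.Agent.Lib.MP_651af7_nt.Gm.UTop
import Pool.Agent.Lib.MP_651af7_nt.Sh.AProx
import Pool.Agent.Lib.MP_651af7_nt.Sh.OFal

/-! Algebraic points on covers of torus bundles over abelian varieties: at every place of `S`, and
in the sum over the other places, each point of the fibre over a rational point has its share of
the local height, and this share is read off from the terms of the equation.

The abelian variety is the zero set of `J`, with generic point `y` and function field `F`. The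
variables of the outer polynomial ring are the coordinates on the fibres of the torus bundle; the
blocks `φ i`, `ψ i` give the metric of the `i`-th line bundle. The cover is given by
`∑ j, ρ j (x, z) * t ^ j = 0`, the divisor on it is `t = ∞`. -/

namespace Pool.Agent.Lib.MP_651af7_nt.Old.TorsorRoots

open Height MvPolynomial NumberField

section

open IntermediateField Pool.Agent.Lib MP_651af7_nt.Ds MP_8865d3_nt.Tr

theorem result (k : Type) [Field k] [NumberField k] (g n N e : ℕ)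
    (J : Ideal (MvPolynomial (Fin g) k)) (hJ : ∀ P ∈ J, ∀ d, homogeneousComponent d P ∈ J)
    (hA : Abelian (J.map (MvPolynomial.map (algebraMap k (AlgebraicClosure k)))))
    (F : Type) [Field F] [Algebra k F] (y : Fin g → F) (h1 : ∃ i, y i = 1)
    (hy : ∀ (P : MvPolynomial (Fin g) k) (d : ℕ), P.IsHomogeneous d → (aeval y P = 0 ↔ P ∈ J))
    (hF : adjoin k (Set.range y) = ⊤) (φ ψ : Fin n → Fin (N + 1) → MvPolynomial (Fin g) k)
    (hφ : ∀ i, ∃ a, aeval y (φ i a) ≠ 0) (hψ : ∀ i, ∃ a, aeval y (ψ i a) ≠ 0)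
    (ρ : Fin (e + 1) → MvPolynomial (Fin n) (MvPolynomial (Fin g) k)) (he : e ≠ 0)
    (hρ : MvPolynomial.map (aeval y).toRingHom (ρ (Fin.last e)) ≠ 0)
    (hf : Irreducible (∑ j : Fin (e + 1),
      Polynomial.monomial j (MvPolynomial.map (aeval y).toRingHom (ρ j))))
    (ε : ℝ) (hε : 0 < ε) :
    ∃ (Θ : MvPolynomial (Fin n) (MvPolynomial (Fin g) k)) (c : ℝ),
      MvPolynomial.map (aeval y).toRingHom Θ ≠ 0 ∧ ∀ S : Finset (FinitePlace k), ∃ C : ℝ,
        ∀ (L : Type) [Field L] [NumberField L] [Algebra k L] (x : Fin g → k) (z : Fin n → k)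
          (t : L), (∀ P, aeval y P = 0 → eval x P = 0) →
        eval z (MvPolynomial.map (eval x) Θ) ≠ 0 →
        ∑ j, eval z (MvPolynomial.map (eval x) (ρ j)) • t ^ (j : ℕ) = 0 →
        ∑ v : InfinitePlace k, |e * lamI v t -
            v.mult * (trm (fun j => MvPolynomial.map (eval x) (ρ j)) z v.1 -
              trm ![MvPolynomial.map (eval x) (ρ (Fin.last e))] z v.1)| +
          ∑ v ∈ S, |e * lamF v t - (trm (fun j => MvPolynomial.map (eval x) (ρ j)) z v.1 -
            trm ![MvPolynomial.map (eval x) (ρ (Fin.last e))] z v.1)| +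
          |∑ᶠ v ∈ (S : Set (FinitePlace k))ᶜ,
              (e * lamF v t - trm (fun j => MvPolynomial.map (eval x) (ρ j)) z v.1) -
            (∑ v : InfinitePlace k,
                v.mult * trm ![MvPolynomial.map (eval x) (ρ (Fin.last e))] z v.1 +
              ∑ v ∈ S, trm ![MvPolynomial.map (eval x) (ρ (Fin.last e))] z v.1)| ≤
        ε * (logHeight x + ∑ i, logHeight₁ (z i)) + c * ∑ i, ∑ᶠ v ∈ (S : Set (FinitePlace k))ᶜ,
          dfc (z i) (fun a => eval x (φ i a)) (fun a => eval x (ψ i a)) v.1 + C :=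
  mainF hA (FractionRing (MvPolynomial (Fin n) F)) ⟨hJ, h1, hy⟩ hF hφ hψ he hρ hf hε

end

/-! The statements below are not the hand-in. They treat covers of the abelian variety itself, in
homogeneous coordinates: the equation `∑ j, ρ j (x) * t ^ j = 0` is homogeneous when `t` has weight
`l`, and the local height of the divisor `t = ∞` is `log⁺ (|t| / |x| ^ l)`. -/

open Pool.Agent.Lib.MP_651af7_nt

/-- The bidegree of the variables of two blocks. -/
def bw (n : ℕ) : Fin n ⊕ Fin n → ℕ × ℕ := Sum.elim (fun _ => (1, 0)) fun _ => (0, 1)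

/-- The zero set of `I` is an abelian variety, `A` is the group of its points over the algebraic
closure, with homogeneous coordinates `co`, and the map sending `(p, q)` to `(p + q, p - q)` is
given by forms of bidegree `(2, 2)` over `k`. -/
structure Ab {k : Type} [Field k] {n : ℕ} (I : Ideal (MvPolynomial (Fin n) k)) {A : Type}
    [AddCommGroup A] (co : A → Fin n → AlgebraicClosure k) : Prop where
  hom : ∀ P ∈ I, ∀ d, homogeneousComponent d P ∈ I
  prime : (I.map (MvPolynomial.map (algebraMap k (AlgebraicClosure k)))).IsPrime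
  ne : ∀ p, co p ≠ 0
  zero : ∀ p, ∀ P ∈ I, aeval (co p) P = 0
  bij : ∀ v : Fin n → AlgebraicClosure k, v ≠ 0 → (∀ P ∈ I, aeval v P = 0) →
    ∃! p, ∃ c : AlgebraicClosure k, v = c • co p
  law : ∃ Φ : Fin n → Fin n → MvPolynomial (Fin n ⊕ Fin n) k,
    (∀ a b, (Φ a b).IsWeightedHomogeneous (bw n) (2, 2)) ∧
    ∀ p q, ∃ c : AlgebraicClosure k, c ≠ 0 ∧ ∀ a b,
      aeval (Sum.elim (co p) (co q)) (Φ a b) = c * (co (p + q) a * co (p - q) b)

/-- The maximum norm at `w`. -/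
noncomputable def nrm {k : Type} [Field k] {n : ℕ} (w : AbsoluteValue k ℝ) (x : Fin n → k) : ℝ :=
  ⨆ i, w (x i)

/-- Covers of an abelian variety: the share of the height away from `S`. -/
theorem abelian (k : Type) [Field k] [NumberField k] (n : ℕ) (A : Type) [AddCommGroup A]
    (I : Ideal (MvPolynomial (Fin n) k)) (co : A → Fin n → AlgebraicClosure k) (hA : Ab I co)
    (e a l : ℕ) (ρ : Fin (e + 1) → MvPolynomial (Fin n) k)
    (hρ : ∀ j, (ρ j).IsHomogeneous (a + (e - j) * l)) (h0 : ρ 0 ∉ I) (h1 : ρ (Fin.last e) ∉ I)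
    (hf : Irreducible (∑ j : Fin (e + 1), Polynomial.monomial j
      (algebraMap _ (FractionRing (MvPolynomial (Fin n) k ⧸ I)) (ρ j))))
    (ε : ℝ) (hε : 0 < ε) :
    ∃ (Θ : MvPolynomial (Fin n) k) (d : ℕ), Θ.IsHomogeneous d ∧ Θ ∉ I ∧
      ∀ S : Finset (FinitePlace k), ∃ C : ℝ, ∀ (K : Type) [Field K] [NumberField K] [Algebra k K]
        (x : Fin n → k) (t : K), x ≠ 0 → (∀ P ∈ I, eval x P = 0) → eval x Θ ≠ 0 →
        ∑ j, eval x (ρ j) • t ^ (j : ℕ) = 0 →
        |a * logHeight x - (∑ᶠ W ∈ {W : FinitePlace K |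
            ∀ w ∈ S, ¬W.maximalIdeal.asIdeal.LiesOver w.maximalIdeal.asIdeal},
          (e * Real.posLog (W.1 t / nrm W.1 (algebraMap k K ∘ x) ^ l) -
            Real.log (⨆ j, W.1 (algebraMap k K (eval x (ρ j))) /
              nrm W.1 (algebraMap k K ∘ x) ^ (a + (e - j) * l)))) / Module.finrank k K| ≤
          ε * logHeight x + C := by
  obtain _ | e := e
  · exact ⟨_, _, hρ 0, h0, fun _ => ⟨0, fun K _ _ _ x t _ _ h2 h3 =>
      absurd (by simpa [Algebra.smul_def] using h3) h2⟩⟩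
  obtain ⟨Φ, hΦ, law⟩ := hA.law
  obtain ⟨B, rfl, -⟩ := Av.exists_av _ I hA.hom hA.prime A co hA.ne hA.zero hA.bij Φ hΦ law
  obtain ⟨Θ, d, h2, h3, h4⟩ := Gm.finalM B hρ h0 h1 hf hε
  refine ⟨Θ, d, h2, h3, fun S => (h4 (Cn.plc S)).imp fun C h K _ _ _ x t hx hz h5 h6 => ?_⟩
  exact Sh.ext_root hρ S hx (h x 1 hx hz h5).1 h6 fun g => (h x g hx hz h5).2

section later

variable (k : Type) [Field k] [NumberField k] (n : ℕ) (A : Type) [AddCommGroup A]
  (I : Ideal (MvPolynomial (Fin n) k)) (co : A → Fin n → AlgebraicClosure k) (hA : Ab I co)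
  (e a l : ℕ) (ρ : Fin (e + 1) → MvPolynomial (Fin n) k)
  (hρ : ∀ j, (ρ j).IsHomogeneous (a + (e - j) * l)) (h0 : ρ 0 ∉ I) (h1 : ρ (Fin.last e) ∉ I)
  (hf : Irreducible (∑ j : Fin (e + 1), Polynomial.monomial j
    (algebraMap _ (FractionRing (MvPolynomial (Fin n) k ⧸ I)) (ρ j))))
  (hc : 2 ≤ ((Ideal.span (Set.range ρ)).map (Ideal.Quotient.mk I)).height) (ha : 0 < a)

include hA hρ h0 h1 hf

/-- The same estimate for the monic factors over `k` of the equation of the fibre. -/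
theorem factors (he : 0 < e) (ε : ℝ) (hε : 0 < ε) :
    ∃ (Θ : MvPolynomial (Fin n) k) (d : ℕ), Θ.IsHomogeneous d ∧ Θ ∉ I ∧
      ∀ S : Finset (FinitePlace k), ∃ C : ℝ, ∀ (x : Fin n → k) (g : Polynomial k), x ≠ 0 →
        (∀ P ∈ I, eval x P = 0) → eval x Θ ≠ 0 → g.Monic →
        g ∣ ∑ j : Fin (e + 1), Polynomial.monomial j (eval x (ρ j)) →
        |g.natDegree * a * logHeight x - ∑ᶠ w ∈ (S : Set (FinitePlace k))ᶜ,
          (e * Real.log (⨆ j : Fin (g.natDegree + 1),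
            w.1 (g.coeff j) / nrm w.1 x ^ ((g.natDegree - j) * l)) - g.natDegree *
            Real.log (⨆ j, w.1 (eval x (ρ j)) / nrm w.1 x ^ (a + (e - j) * l)))| ≤
          ε * logHeight x + C := by
  obtain ⟨e, rfl⟩ := Nat.exists_eq_add_one.2 he
  obtain ⟨Φ, hΦ, law⟩ := hA.law
  obtain ⟨B, rfl, -⟩ := Av.exists_av _ I hA.hom hA.prime A co hA.ne hA.zero hA.bij Φ hΦ law
  obtain ⟨Θ, d, h2, h3, h4⟩ := Gm.finalM B hρ h0 h1 hf hε
  refine ⟨Θ, d, h2, h3, fun S => (h4 (Cn.plc S)).imp fun C h x g hx hz h5 h6 h7 => ?_⟩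
  have h8 := (h x g hx hz h5).2 h6 h7
  rwa [Cn.osum_plc] at h8

include hc ha

/-- Coefficients without a common divisor on the abelian variety. -/
theorem coprime (ε : ℝ) (hε : 0 < ε) :
    ∃ (Θ : MvPolynomial (Fin n) k) (d : ℕ), Θ.IsHomogeneous d ∧ Θ ∉ I ∧
      ∀ S : Finset (FinitePlace k), ∃ C : ℝ, ∀ (K : Type) [Field K] [NumberField K] [Algebra k K]
        (x : Fin n → k) (t : K), x ≠ 0 → (∀ P ∈ I, eval x P = 0) → eval x Θ ≠ 0 →
        ∑ j, eval x (ρ j) • t ^ (j : ℕ) = 0 →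
        |a * logHeight x - e * ((∑ᶠ W ∈ {W : FinitePlace K |
            ∀ w ∈ S, ¬W.maximalIdeal.asIdeal.LiesOver w.maximalIdeal.asIdeal},
          Real.posLog (W.1 t / nrm W.1 (algebraMap k K ∘ x) ^ l)) / Module.finrank k K)| ≤
          ε * logHeight x + C := by
  have H := abelian k n A I co hA e a l ρ hρ h0 h1 hf
  obtain ⟨Φ, hΦ, law⟩ := hA.law
  obtain ⟨A₁, rfl, -⟩ := Av.exists_av _ I hA.hom hA.prime A co hA.ne hA.zero hA.bij Φ hΦ law
  exact Sh.coprimeA_of A₁ ha hρ hc H hε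

/-- Off a hypersurface that does not depend on `S`, the rational points with an `S`-integral root
in some number field have bounded height. -/
theorem integral :
    ∃ (Θ : MvPolynomial (Fin n) k) (d : ℕ), Θ.IsHomogeneous d ∧ Θ ∉ I ∧
      ∀ S : Finset (FinitePlace k), ∃ C : ℝ, ∀ (K : Type) [Field K] [NumberField K] [Algebra k K]
        (x : Fin n → k) (t : K), x ≠ 0 → (∀ P ∈ I, eval x P = 0) → eval x Θ ≠ 0 →
        ∑ j, eval x (ρ j) • t ^ (j : ℕ) = 0 → (∀ W : FinitePlace K,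
          (∀ w ∈ S, ¬W.maximalIdeal.asIdeal.LiesOver w.maximalIdeal.asIdeal) →
          W.1 t ≤ nrm W.1 (algebraMap k K ∘ x) ^ l) → logHeight x ≤ C := by
  obtain ⟨Θ, d, h2, h3, h4⟩ := coprime k n A I co hA e a l ρ hρ h0 h1 hf hc ha _ one_half_pos
  exact ⟨Θ, d, h2, h3, fun S => (h4 S).elim fun C h => ⟨_, fun K _ _ _ x t hx hz h5 h6 =>
    Sh.integralA_of ha hx (h K x t hx hz h5 h6)⟩⟩

/-- The rational points with an `S`-integral root in some number field lie on a hypersurface. -/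
theorem degenerate [Nontrivial A] (S : Finset (FinitePlace k)) :
    ∃ (Θ : MvPolynomial (Fin n) k) (d : ℕ), Θ.IsHomogeneous d ∧ Θ ∉ I ∧
      ∀ (K : Type) [Field K] [NumberField K] [Algebra k K] (x : Fin n → k) (t : K), x ≠ 0 →
        (∀ P ∈ I, eval x P = 0) → ∑ j, eval x (ρ j) • t ^ (j : ℕ) = 0 → (∀ W : FinitePlace K,
          (∀ w ∈ S, ¬W.maximalIdeal.asIdeal.LiesOver w.maximalIdeal.asIdeal) →
          W.1 t ≤ nrm W.1 (algebraMap k K ∘ x) ^ l) → eval x Θ = 0 := by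
  obtain ⟨Θ, d, h2, h3, h4⟩ := integral k n A I co hA e a l ρ hρ h0 h1 hf hc ha
  obtain ⟨C, h4⟩ := h4 S
  obtain ⟨Φ, hΦ, law⟩ := hA.law
  obtain ⟨A₁, rfl, -⟩ := Av.exists_av _ I hA.hom hA.prime A co hA.ne hA.zero hA.bij Φ hΦ law
  obtain ⟨Θ', d', h5, h6, h7⟩ := Sh.degenerate_of A₁ hA.ne hA.zero hA.bij h2 h3 C
  exact ⟨Θ', d', h5, h6, fun K _ _ _ x t hx hz ht hw =>
    h7 x hx hz fun h => h4 K x t hx hz h ht hw⟩

/-- On a simple abelian variety there is no exceptional set for integral roots. -/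
theorem integral_simple
    (hS : ∀ (B : AddSubgroup A) (q : Ideal (MvPolynomial (Fin n) k)) (c : A),
      (∀ P ∈ q, ∀ d, homogeneousComponent d P ∈ q) →
      (∀ p, (∀ P ∈ q, aeval (co p) P = 0) ↔ p - c ∈ B) → (B : Set A).Finite ∨ B = ⊤)
    (S : Finset (FinitePlace k)) :
    ∃ C : ℝ, ∀ (K : Type) [Field K] [NumberField K] [Algebra k K] (x : Fin n → k) (t : K), x ≠ 0 →
      (∀ P ∈ I, eval x P = 0) → ∑ j, eval x (ρ j) • t ^ (j : ℕ) = 0 → (∀ W : FinitePlace K,
        (∀ w ∈ S, ¬W.maximalIdeal.asIdeal.LiesOver w.maximalIdeal.asIdeal) →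
        W.1 t ≤ nrm W.1 (algebraMap k K ∘ x) ^ l) → logHeight x ≤ C := by
  obtain ⟨Θ, d, h2, h3, h4⟩ := integral k n A I co hA e a l ρ hρ h0 h1 hf hc ha
  obtain ⟨C, h4⟩ := h4 S
  obtain ⟨Φ, hΦ, law⟩ := hA.law
  obtain ⟨A₁, rfl, -, ψ, hψ⟩ := Av.exists_av _ I hA.hom hA.prime A co hA.ne hA.zero hA.bij Φ hΦ law
  obtain ⟨C', h5⟩ := Sh.simple_bdd' A₁ hA.prime hA.ne hA.zero hA.bij ψ hψ hS h2 h3
  exact ⟨max C C', fun K _ _ _ x t hx hz ht hw => (eq_or_ne (eval x Θ) 0).elim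
    (fun h => (h5 x hx hz h).trans (le_max_right _ _))
    fun h => (h4 K x t hx hz h ht hw).trans (le_max_left _ _)⟩

/-- The inequality on the projective line, without the canonical class and the discriminant, for
the roots of the equations of the fibres: the proximity to `β` is the height of `1 / (t - β)` minus
the sum over the finite places that do not lie above `S`. -/
theorem line (hl : l = 0) (D : Finset k) (hD : ∀ β ∈ D, ∑ j, ρ j * C (β ^ (j : ℕ)) ∉ I)
    (ε : ℝ) (hε : 0 < ε) :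
    ∃ (Θ : MvPolynomial (Fin n) k) (d : ℕ), Θ.IsHomogeneous d ∧ Θ ∉ I ∧
      ∀ S : Finset (FinitePlace k), ∃ C : ℝ, ∀ (K : Type) [Field K] [NumberField K] [Algebra k K]
        (x : Fin n → k) (t : K), x ≠ 0 → (∀ P ∈ I, eval x P = 0) → eval x Θ ≠ 0 →
        ∑ j, eval x (ρ j) • t ^ (j : ℕ) = 0 →
        ∑ β ∈ D, (logHeight₁ (t - algebraMap k K β)⁻¹ - ∑ᶠ W ∈ {W : FinitePlace K | ∀ w ∈ S,
          ¬W.maximalIdeal.asIdeal.LiesOver w.maximalIdeal.asIdeal},
          Real.posLog (W.1 (t - algebraMap k K β)⁻¹)) ≤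
        ε * logHeight₁ t + Module.finrank k K * C := by
  obtain ⟨Θ, d, h2, h3, h4⟩ := coprime k n A I co hA e a l ρ hρ h0 h1 hf hc ha _ one_half_pos
  obtain ⟨C, h4⟩ := h4 ∅
  subst hl
  obtain ⟨Φ, hΦ, law⟩ := hA.law
  obtain ⟨A₁, rfl, -⟩ := Av.exists_av _ I hA.hom hA.prime A co hA.ne hA.zero hA.bij Φ hΦ law
  obtain ⟨Θ', d', h5, h6, h7⟩ := Sh.line_of A₁ ha hρ D hD h2 h3 (C₀ := C) hε
  exact ⟨Θ', d', h5, h6, fun S => (h7 S).imp fun C' h K _ _ _ x t hx hz h8 ht =>
    h K x t _ hx hz h8 ht fun h9 => by simpa only [pow_zero, div_one] using h4 K x t hx hz h9 ht⟩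

end later

end Pool.Agent.Lib.MP_651af7_nt.Old.TorsorRoots
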